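import Pool.Agent.Q102.Heis.Orb

set_option autoImplicit false

namespace Pool.Agent.Results.MP_eff972_al.QuadraticTimesLog

open Pool.Agent.Q102.Heis

/-! ## Definitions used in the statement -/

/-- The elements of length at most `n` over `S ∪ S⁻¹`. -/
def ball {G : Type} [Group G] (S : Finset G) (n : ℕ) : Set G :=
  {g | ∃ l : List G, l.length ≤ n ∧ (∀ s ∈ l, s ∈ S ∨ s⁻¹ ∈ S) ∧ l.prod = g}

/-- The orbit of `g` under the automorphism group of `G`. -/
def orb {G : Type} [Group G] (g : G) : Set G := {h | ∃ φ : G ≃* G, φ g = h}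

/-- The automorphic growth function: the number of orbits of the automorphism group that contain an
element of length at most `n`. -/
noncomputable def autGrowth {G : Type} [Group G] (S : Finset G) (n : ℕ) : ℕ :=
  {O : Set G | (∃ g, O = orb g) ∧ (O ∩ ball S n).Nonempty}.ncard

/-- The preorder on growth functions. -/
def Dom (f g : ℕ → ℕ) : Prop := ∃ c : ℕ, 1 ≤ c ∧ ∀ n, f n ≤ c * g (c * n + c) + c

/-- The equivalence of growth functions. -/
def Sim (f g : ℕ → ℕ) : Prop := Dom f g ∧ Dom g f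

/-! ## Generalities -/

section Gen

variable {G : Type} [Group G]

theorem ball_mono (S : Finset G) {m n : ℕ} (h : m ≤ n) : ball S m ⊆ ball S n := by
  rintro g ⟨l, h1, h2, h3⟩
  exact ⟨l, h1.trans h, h2, h3⟩

theorem ball_finite (S : Finset G) (n : ℕ) : (ball S n).Finite := by
  classical
  set T : Finset G := S ∪ S.image (fun s => s⁻¹) with hT
  have h1 : {l : List T | l.length ≤ n}.Finite := List.finite_length_le T n
  refine (h1.image (fun l : List T => (l.map (fun x : T => (x : G))).prod)).subset ?_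
  rintro g ⟨l, h2, h3, rfl⟩
  have h4 : ∀ x ∈ l, x ∈ T := by
    intro x hx
    rw [hT, Finset.mem_union, Finset.mem_image]
    rcases h3 x hx with h | h
    · exact Or.inl h
    · exact Or.inr ⟨x⁻¹, h, inv_inv x⟩
  refine ⟨l.attach.map (fun x => ⟨x.1, h4 x.1 x.2⟩), by simpa using h2, ?_⟩
  simp only [List.map_map]
  congr 1
  conv_rhs => rw [← List.attach_map_subtype_val l]
  rfl

theorem mul_mem_ball (S : Finset G) {m n : ℕ} {g h : G} (hg : g ∈ ball S m) (hh : h ∈ ball S n) :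
    g * h ∈ ball S (m + n) := by
  obtain ⟨l, h1, h2, rfl⟩ := hg
  obtain ⟨l', h1', h2', rfl⟩ := hh
  refine ⟨l ++ l', by rw [List.length_append]; omega, ?_, List.prod_append⟩
  intro s hs
  rcases List.mem_append.1 hs with h | h
  · exact h2 s h
  · exact h2' s h

theorem inv_mem_ball (S : Finset G) {n : ℕ} {g : G} (hg : g ∈ ball S n) : g⁻¹ ∈ ball S n := by
  obtain ⟨l, h1, h2, rfl⟩ := hg
  refine ⟨(l.map (fun x => x⁻¹)).reverse, by simpa using h1, ?_, ?_⟩
  · intro s hs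
    rw [List.mem_reverse, List.mem_map] at hs
    obtain ⟨t, ht, rfl⟩ := hs
    rw [inv_inv]
    exact (h2 t ht).symm
  · rw [List.prod_inv_reverse]

theorem mem_some_ball (S : Finset G) (hS : Subgroup.closure (S : Set G) = ⊤) (g : G) :
    ∃ n, g ∈ ball S n := by
  have h : g ∈ Subgroup.closure (S : Set G) := by rw [hS]; trivial
  induction h using Subgroup.closure_induction with
  | mem x hx => exact ⟨1, [x], by simp, by simpa using Or.inl hx, by simp⟩
  | one => exact ⟨0, [], by simp, by simp, by simp⟩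
  | mul x y _ _ hx hy =>
    obtain ⟨m, hm⟩ := hx
    obtain ⟨n, hn⟩ := hy
    exact ⟨m + n, mul_mem_ball S hm hn⟩
  | inv x _ hx =>
    obtain ⟨m, hm⟩ := hx
    exact ⟨m, inv_mem_ball S hm⟩

theorem ball_sub (S S' : Finset G) (hS : Subgroup.closure (S : Set G) = ⊤) :
    ∃ C : ℕ, 1 ≤ C ∧ ∀ n, ball S' n ⊆ ball S (C * n) := by
  classical
  choose f hf using mem_some_ball S hS
  set C := S'.sup f + 1 with hC
  have h1 : ∀ s ∈ S', s ∈ ball S C := fun s hs =>
    ball_mono S ((Finset.le_sup hs).trans (by omega)) (hf s)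
  refine ⟨C, by omega, ?_⟩
  rintro n g ⟨l, h2, h3, rfl⟩
  have key : ∀ l : List G, (∀ s ∈ l, s ∈ S' ∨ s⁻¹ ∈ S') → l.prod ∈ ball S (C * l.length) := by
    intro l
    induction l with
    | nil => intro _; exact ⟨[], by simp, by simp, rfl⟩
    | cons a t ih =>
      intro h
      rw [List.prod_cons, List.length_cons, Nat.mul_add, mul_one, Nat.add_comm]
      refine mul_mem_ball S ?_ (ih (fun s hs => h s (List.mem_cons_of_mem _ hs)))
      rcases h a List.mem_cons_self with h4 | h4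
      · exact h1 a h4
      · have := inv_mem_ball S (h1 _ h4)
        rwa [inv_inv] at this
  exact ball_mono S (Nat.mul_le_mul_left C h2) (key l h3)

theorem orbits_finite (S : Finset G) (n : ℕ) :
    {O : Set G | (∃ g, O = orb g) ∧ (O ∩ ball S n).Nonempty}.Finite := by
  refine ((ball_finite S n).image orb).subset ?_
  rintro O ⟨⟨g, rfl⟩, h, ⟨φ, hφ⟩, hh⟩
  refine ⟨h, hh, ?_⟩
  ext k
  constructor
  · rintro ⟨ψ, rfl⟩
    exact ⟨φ.trans ψ, by rw [← hφ]; rfl⟩
  · rintro ⟨ψ, rfl⟩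
    exact ⟨φ.symm.trans ψ, by rw [← hφ]; simp⟩

theorem autGrowth_le_of_sub (S S' : Finset G) {m n : ℕ} (h : ball S' m ⊆ ball S n) :
    autGrowth S' m ≤ autGrowth S n := by
  refine Set.ncard_le_ncard ?_ (orbits_finite S n)
  rintro O ⟨h1, h2⟩
  exact ⟨h1, h2.mono (Set.inter_subset_inter_right _ h)⟩

theorem autGrowth_mono (S : Finset G) {m n : ℕ} (h : m ≤ n) : autGrowth S m ≤ autGrowth S n :=
  autGrowth_le_of_sub S S (ball_mono S h)

end Gen

/-! ## The group -/

/-- the standard generators -/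
def S0 : Finset GG := {gA, gB, gC, gR}

theorem small_of_S0 (s : GG) (hs : s ∈ S0 ∨ s⁻¹ ∈ S0) : ∀ k : Fin 4,
    |rx k s.x s.y| ≤ 1 ∧ |ry k s.x s.y| ≤ 1 ∧ |rz k s.x s.y s.z| ≤ 1 := by
  have h0 : s ∈ S0 ∨ s ∈ ({gA⁻¹, gB⁻¹, gC⁻¹, gR⁻¹} : Finset GG) := by
    rcases hs with h | h
    · exact Or.inl h
    · right
      simp only [S0, Finset.mem_insert, Finset.mem_singleton] at h ⊢
      rcases h with h | h | h | h
      · left; rw [← h, inv_inv]
      · right; left; rw [← h, inv_inv]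
      · right; right; left; rw [← h, inv_inv]
      · right; right; right; rw [← h, inv_inv]
  simp only [S0, Finset.mem_insert, Finset.mem_singleton] at h0
  have h3 : (-1 : Fin 4) = 3 := by decide
  intro k
  rcases h0 with (rfl | rfl | rfl | rfl) | (rfl | rfl | rfl | rfl) <;> fin_cases k <;>
    simp [gA, gB, gC, gR, rx, ry, rz, h3]

theorem bd_of_ball (n : ℕ) (g : GG) (hg : g ∈ ball S0 n) : Bd n g := by
  obtain ⟨l, h1, h2, rfl⟩ := hg
  have key : ∀ l : List GG, (∀ s ∈ l, s ∈ S0 ∨ s⁻¹ ∈ S0) →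
      |l.prod.x| ≤ l.length ∧ |l.prod.y| ≤ l.length ∧ |l.prod.z| ≤ (l.length : ℤ) ^ 2 := by
    intro l
    induction l using List.reverseRecOn with
    | nil => intro _; simp
    | append_singleton t s ih =>
      intro h
      obtain ⟨i1, i2, i3⟩ := ih (fun s hs => h s (List.mem_append_left _ hs))
      obtain ⟨j1, j2, j3⟩ := small_of_S0 s (h s (by simp)) t.prod.k
      rw [List.prod_append, List.prod_singleton, List.length_append, List.length_singleton]
      simp only [GG.mul_x, GG.mul_y, GG.mul_z]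
      push_cast
      have a1 := abs_add_le t.prod.x (rx t.prod.k s.x s.y)
      have a2 := abs_add_le t.prod.y (ry t.prod.k s.x s.y)
      have a3 := abs_add_le (t.prod.z + rz t.prod.k s.x s.y s.z) (t.prod.x * ry t.prod.k s.x s.y)
      have a4 := abs_add_le t.prod.z (rz t.prod.k s.x s.y s.z)
      have a5 : |t.prod.x * ry t.prod.k s.x s.y| ≤ t.length * 1 := by
        rw [abs_mul]
        gcongr
      refine ⟨by linarith, by linarith, ?_⟩
      have : ((t.length : ℤ) + 1) ^ 2 = (t.length : ℤ) ^ 2 + 2 * t.length + 1 := by ring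
      have h0 : (0 : ℤ) ≤ t.length := Int.natCast_nonneg _
      linarith
  obtain ⟨i1, i2, i3⟩ := key l h2
  have h3 : (l.length : ℤ) ≤ n := by exact_mod_cast h1
  refine ⟨i1.trans h3, i2.trans h3, i3.trans ?_⟩
  gcongr

theorem pow_mem_ball (s : GG) (hs : s ∈ S0) (m : ℕ) : s ^ m ∈ ball S0 m :=
  ⟨List.replicate m s, by simp, by
    intro t ht
    rw [List.eq_of_mem_replicate ht]
    exact Or.inl hs, by simp⟩

theorem S0_closure : Subgroup.closure (S0 : Set GG) = ⊤ := by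
  rw [eq_top_iff]
  intro g _
  obtain ⟨x, y, z, k⟩ := g
  have hA : gA ∈ Subgroup.closure (S0 : Set GG) := Subgroup.subset_closure (by simp [S0])
  have hB : gB ∈ Subgroup.closure (S0 : Set GG) := Subgroup.subset_closure (by simp [S0])
  have hC : gC ∈ Subgroup.closure (S0 : Set GG) := Subgroup.subset_closure (by simp [S0])
  have hR : gR ∈ Subgroup.closure (S0 : Set GG) := Subgroup.subset_closure (by simp [S0])
  have h1 : (⟨x, y, z, k⟩ : GG) = gB ^ y * gA ^ x * gC ^ z * gR ^ (k : ℕ) := by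
    rw [← decomp]
    have h2 : gR ^ (k : ℕ) = ⟨0, 0, 0, k⟩ := by
      have h3 : ∀ k : Fin 4, gR ^ (k : ℕ) = ⟨0, 0, 0, k⟩ := by decide
      exact h3 k
    rw [h2]
    ext <;> simp [rx, ry, rz]
  rw [h1]
  exact Subgroup.mul_mem _ (Subgroup.mul_mem _ (Subgroup.mul_mem _ (Subgroup.zpow_mem _ hB _)
    (Subgroup.zpow_mem _ hA _)) (Subgroup.zpow_mem _ hC _)) (Subgroup.pow_mem _ hR _)

theorem orb_eq_of_rel {g h : GG} (hr : Rel g h) : orb g = orb h := by
  obtain ⟨φ, rfl⟩ := hr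
  ext k
  constructor
  · rintro ⟨ψ, rfl⟩
    exact ⟨φ.symm.trans ψ, by simp⟩
  · rintro ⟨ψ, rfl⟩
    exact ⟨φ.trans ψ, rfl⟩

theorem upper0 (n : ℕ) : autGrowth S0 n ≤ SS n + n ^ 2 + 208 * (n + 1) ^ 2 := by
  classical
  have h1 : {O : Set GG | (∃ g, O = orb g) ∧ (O ∩ ball S0 n).Nonempty} ⊆
      (((R1 n ∪ R3 n).image orb : Finset (Set GG)) : Set (Set GG)) := by
    rintro O ⟨⟨g, rfl⟩, h, hh, hb⟩
    have h2 : orb g = orb h := orb_eq_of_rel hh
    rw [h2, Finset.coe_image]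
    rcases rep n h (bd_of_ball n h hb) with ⟨r, hr, hrel⟩ | ⟨r, hr, hrel⟩
    · exact ⟨r, by simp [hr], (orb_eq_of_rel hrel).symm⟩
    · exact ⟨r, by simp [hr], (orb_eq_of_rel hrel).symm⟩
  have h2 := Set.ncard_le_ncard h1 (Finset.finite_toSet _)
  rw [Set.ncard_coe_finset] at h2
  have h3 := (Finset.card_image_le (s := R1 n ∪ R3 n) (f := orb)).trans
    (Finset.card_union_le (R1 n) (R3 n))
  have h4 := card_R1 n
  have h5 := card_R3 n
  unfold autGrowth
  omega

theorem lower0 (n : ℕ) : SS n ≤ 4 * autGrowth S0 (3 * n) := by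
  classical
  refine (card_TT n).trans (Nat.mul_le_mul_left 4 ?_)
  have h1 : ((TT n).image (fun t => orb (el t))).card = (TT n).card := by
    refine Finset.card_image_of_injOn ?_
    intro s hs t ht h
    refine el_inj n s t hs ht ?_
    have h2 : el t ∈ orb (el t) := ⟨MulEquiv.refl _, rfl⟩
    have h3 : orb (el s) = orb (el t) := h
    rw [← h3] at h2
    exact h2
  rw [← h1, ← Set.ncard_coe_finset]
  refine Set.ncard_le_ncard ?_ (orbits_finite S0 (3 * n))
  rw [Finset.coe_image]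
  rintro O ⟨t, ht, rfl⟩
  refine ⟨⟨_, rfl⟩, el t, ⟨MulEquiv.refl _, rfl⟩, ?_⟩
  obtain ⟨⟨x, y⟩, z⟩ := t
  simp only [TT, Finset.mem_coe, Finset.mem_sigma, Finset.mem_filter, PP, Finset.mem_product,
    Finset.mem_Ioc, Finset.mem_range] at ht
  obtain ⟨⟨⟨⟨hx0, hx⟩, hy0, hy⟩, hxy⟩, hz⟩ := ht
  have hzn : z ≤ n := by
    have : Nat.gcd x y ≤ x := Nat.le_of_dvd hx0 (Nat.gcd_dvd_left _ _)
    omega
  have h2 : el ⟨(x, y), z⟩ = gB ^ y * gA ^ x * gC ^ z := by
    have := decomp (x : ℤ) (y : ℤ) (z : ℤ)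
    rw [zpow_natCast, zpow_natCast, zpow_natCast] at this
    exact this
  rw [h2]
  refine ball_mono S0 ?_ (mul_mem_ball S0 (mul_mem_ball S0 (pow_mem_ball gB (by simp [S0]) y)
    (pow_mem_ball gA (by simp [S0]) x)) (pow_mem_ball gC (by simp [S0]) z))
  omega

/-- the comparison function -/
theorem cmp_mono : Monotone (fun n : ℕ => n ^ 2 * Nat.log 2 n) := by
  intro a b h
  exact Nat.mul_le_mul (Nat.pow_le_pow_left h 2) (Nat.log_mono_right h)

theorem dom_upper (S : Finset GG) (hS : Subgroup.closure (S : Set GG) = ⊤) :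
    Dom (autGrowth S) (fun n => n ^ 2 * Nat.log 2 n) := by
  obtain ⟨C, hC, h⟩ := ball_sub S0 S S0_closure
  refine ⟨211 * C, by omega, fun n => ?_⟩
  set m := C * n with hm
  have h1 : autGrowth S n ≤ SS m + m ^ 2 + 208 * (m + 1) ^ 2 :=
    (autGrowth_le_of_sub S0 S (h n)).trans (upper0 m)
  have h2 : SS m ≤ m ^ 2 * (2 + Nat.log 2 m) := by exact_mod_cast SS_upper m
  have h3 : autGrowth S n ≤ (m + 1) ^ 2 * (211 * (Nat.log 2 m + 1)) := by
    have h4 : m ^ 2 ≤ (m + 1) ^ 2 := Nat.pow_le_pow_left (by omega) 2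
    have h5 : m ^ 2 * (2 + Nat.log 2 m) ≤ (m + 1) ^ 2 * (2 + Nat.log 2 m) :=
      Nat.mul_le_mul_right _ h4
    calc autGrowth S n ≤ SS m + m ^ 2 + 208 * (m + 1) ^ 2 := h1
      _ ≤ (m + 1) ^ 2 * (2 + Nat.log 2 m) + (m + 1) ^ 2 + 208 * (m + 1) ^ 2 := by omega
      _ = (m + 1) ^ 2 * (211 + Nat.log 2 m) := by ring
      _ ≤ _ := Nat.mul_le_mul_left _ (by omega)
  set M := 211 * C * n + 211 * C with hM
  have h4 : 2 * (m + 1) ≤ M := by
    have : C * n + C * 1 ≥ m + 1 := by omega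
    calc 2 * (m + 1) ≤ 2 * (C * n + C * 1) := by omega
      _ ≤ 211 * (C * n + C * 1) := by omega
      _ = M := by rw [hM]; ring
  have h5 : Nat.log 2 m + 1 ≤ Nat.log 2 M := by
    calc Nat.log 2 m + 1 ≤ Nat.log 2 (m + 1) + 1 :=
          Nat.add_le_add_right (Nat.log_mono_right (by omega)) 1
      _ = Nat.log 2 ((m + 1) * 2) := (Nat.log_mul_base (by norm_num) (by omega)).symm
      _ ≤ Nat.log 2 M := Nat.log_mono_right (by omega)
  calc autGrowth S n ≤ (m + 1) ^ 2 * (211 * (Nat.log 2 m + 1)) := h3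
    _ ≤ M ^ 2 * (211 * Nat.log 2 M) :=
      Nat.mul_le_mul (Nat.pow_le_pow_left (by omega) 2) (Nat.mul_le_mul_left _ h5)
    _ = 211 * (M ^ 2 * Nat.log 2 M) := by ring
    _ ≤ 211 * C * (M ^ 2 * Nat.log 2 M) := Nat.mul_le_mul_right _ (Nat.le_mul_of_pos_right _ hC)
    _ ≤ _ := Nat.le_add_right _ _

theorem dom_lower (S : Finset GG) (hS : Subgroup.closure (S : Set GG) = ⊤) :
    Dom (fun n => n ^ 2 * Nat.log 2 n) (autGrowth S) := by
  obtain ⟨C, hC, h⟩ := ball_sub S S0 hS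
  refine ⟨128 * (3 * C), by omega, fun n => ?_⟩
  have h1 : n ^ 2 * Nat.log 2 n ≤ 32 * SS n := by exact_mod_cast SS_lower n
  have h2 := lower0 n
  have h3 : autGrowth S0 (3 * n) ≤ autGrowth S (C * (3 * n)) := autGrowth_le_of_sub S S0 (h _)
  have h4 : autGrowth S (C * (3 * n)) ≤ autGrowth S (128 * (3 * C) * n + 128 * (3 * C)) := by
    apply autGrowth_mono
    calc C * (3 * n) = 3 * C * n := by ring
      _ ≤ 128 * (3 * C * n) := by omega
      _ = 128 * (3 * C) * n := by ring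
      _ ≤ _ := Nat.le_add_right _ _
  calc n ^ 2 * Nat.log 2 n ≤ 32 * (4 * autGrowth S (128 * (3 * C) * n + 128 * (3 * C))) := by
        omega
    _ = 128 * autGrowth S (128 * (3 * C) * n + 128 * (3 * C)) := by ring
    _ ≤ 128 * (3 * C) * autGrowth S (128 * (3 * C) * n + 128 * (3 * C)) :=
        Nat.mul_le_mul_right _ (by omega)
    _ ≤ _ := Nat.le_add_right _ _

theorem Dom.trans {f g h : ℕ → ℕ} (hh : Monotone h) (h1 : Dom f g) (h2 : Dom g h) : Dom f h := by
  obtain ⟨c, hc, h1⟩ := h1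
  obtain ⟨d, hd, h2⟩ := h2
  refine ⟨c * d + c * d + c + d, by omega, fun n => ?_⟩
  set e := c * d + c * d + c + d with he
  have h3 : d * (c * n + c) + d ≤ e * n + e := by
    have a1 : d * (c * n + c) + d = c * d * n + (c * d + d) := by ring
    have a2 : c * d * n ≤ e * n := Nat.mul_le_mul_right _ (by omega)
    omega
  calc f n ≤ c * g (c * n + c) + c := h1 n
    _ ≤ c * (d * h (d * (c * n + c) + d) + d) + c := by
        have := Nat.mul_le_mul_left c (h2 (c * n + c)); omega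
    _ = c * d * h (d * (c * n + c) + d) + (c * d + c) := by ring
    _ ≤ c * d * h (e * n + e) + (c * d + c) := by
        have := Nat.mul_le_mul_left (c * d) (hh h3); omega
    _ ≤ e * h (e * n + e) + e := by
        have : c * d * h (e * n + e) ≤ e * h (e * n + e) := Nat.mul_le_mul_right _ (by omega)
        omega

theorem pow_mono' (k : ℕ) : Monotone (fun n : ℕ => n ^ k) := fun _ _ h => Nat.pow_le_pow_left h k

/-- `n² log n` is not equivalent to a power. -/
theorem not_low (k : ℕ) (hk : k ≤ 2) : ¬ Dom (fun n => n ^ 2 * Nat.log 2 n) (fun n => n ^ k) := by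
  rintro ⟨c, hc, h⟩
  set K := 4 * c ^ 3 + c with hK
  have h1 := h (2 ^ (K + 1))
  simp only [Nat.log_pow (by norm_num : 1 < 2)] at h1
  have h2 : 1 ≤ 2 ^ (K + 1) := Nat.one_le_two_pow
  set N := 2 ^ (K + 1) with hN
  have h3 : (c * N + c) ^ k ≤ (2 * c * N) ^ 2 := by
    have h4 : 1 ≤ c * N + c := by omega
    calc (c * N + c) ^ k ≤ (c * N + c) ^ 2 := Nat.pow_le_pow_right h4 hk
      _ ≤ (2 * c * N) ^ 2 := by
        apply Nat.pow_le_pow_left
        have : c ≤ c * N := Nat.le_mul_of_pos_right c (by omega)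
        calc c * N + c ≤ c * N + c * N := by omega
          _ = 2 * c * N := by ring
  have h5 : N ^ 2 * (K + 1) ≤ (4 * c ^ 3) * N ^ 2 + c := by
    calc N ^ 2 * (K + 1) ≤ c * (c * N + c) ^ k + c := h1
      _ ≤ c * (2 * c * N) ^ 2 + c := by
        have := Nat.mul_le_mul_left c h3; omega
      _ = _ := by ring
  have h6 : c ≤ c * N ^ 2 := Nat.le_mul_of_pos_right c (by positivity)
  have h7 : N ^ 2 * (K + 1) ≤ N ^ 2 * K := by
    calc N ^ 2 * (K + 1) ≤ (4 * c ^ 3) * N ^ 2 + c * N ^ 2 := by omega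
      _ = N ^ 2 * K := by rw [hK]; ring
  have h8 := Nat.le_of_mul_le_mul_left h7 (by positivity)
  omega

theorem not_high (k : ℕ) (hk : 3 ≤ k) : ¬ Dom (fun n => n ^ k) (fun n => n ^ 2 * Nat.log 2 n) := by
  rintro ⟨c, hc, h⟩
  -- for all `n ≥ 1`, `n ≤ K * (log n + K)`
  have h1 : ∀ n : ℕ, 1 ≤ n → n ≤ 4 * c ^ 3 * (Nat.log 2 n + (c + 1)) + c := by
    intro n hn
    have h2 := h n
    simp only at h2
    have h3 : c * n + c ≤ 2 * c * n := by nlinarith
    have h4 : Nat.log 2 (c * n + c) ≤ Nat.log 2 n + (c + 1) := by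
      have h5 : c * n + c ≤ n * 2 ^ (c + 1) := by
        have h6 : c ≤ 2 ^ c := Nat.lt_two_pow_self.le
        calc c * n + c ≤ 2 * c * n := h3
          _ ≤ 2 * 2 ^ c * n := by gcongr
          _ = n * 2 ^ (c + 1) := by ring
      calc Nat.log 2 (c * n + c) ≤ Nat.log 2 (n * 2 ^ (c + 1)) := Nat.log_mono_right h5
        _ = Nat.log 2 n + (c + 1) := by
          clear h h2 h3 h5
          induction (c + 1) with
          | zero => simp
          | succ j ih =>
            rw [pow_succ, ← mul_assoc, Nat.log_mul_base (by norm_num) (by positivity), ih]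
            rfl
    have h5 : n ^ 3 ≤ n ^ 2 * (4 * c ^ 3 * (Nat.log 2 n + (c + 1)) + c) := by
      calc n ^ 3 ≤ n ^ k := Nat.pow_le_pow_right hn hk
        _ ≤ c * ((c * n + c) ^ 2 * Nat.log 2 (c * n + c)) + c := h2
        _ ≤ c * ((2 * c * n) ^ 2 * (Nat.log 2 n + (c + 1))) + c := by gcongr
        _ ≤ c * ((2 * c * n) ^ 2 * (Nat.log 2 n + (c + 1))) + c * n ^ 2 := by
          have : c ≤ c * n ^ 2 := Nat.le_mul_of_pos_right c (by positivity)
          omega
        _ = _ := by ring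
    have h6 : n ^ 3 = n ^ 2 * n := by ring
    rw [h6] at h5
    exact Nat.le_of_mul_le_mul_left h5 (by positivity)
  -- contradiction for `n = 2 ^ m`
  set K := 4 * c ^ 3 + (4 * c ^ 3 * (c + 1) + c) with hK
  have h2 : ∀ m : ℕ, 2 ^ m ≤ K * (m + 1) := by
    intro m
    have h3 := h1 (2 ^ m) Nat.one_le_two_pow
    rw [Nat.log_pow (by norm_num)] at h3
    calc 2 ^ m ≤ 4 * c ^ 3 * (m + (c + 1)) + c := h3
      _ = 4 * c ^ 3 * m + (4 * c ^ 3 * (c + 1) + c) := by ring
      _ ≤ K * m + K := by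
        have : 4 * c ^ 3 * m ≤ K * m := Nat.mul_le_mul_right m (by omega)
        omega
      _ = K * (m + 1) := by ring
  -- take `m = 2 * j`
  have h3 : ∀ j : ℕ, (j + 1) ^ 2 ≤ 4 ^ j := by
    intro j
    calc (j + 1) ^ 2 ≤ (2 ^ j) ^ 2 := Nat.pow_le_pow_left Nat.lt_two_pow_self 2
      _ = 4 ^ j := by rw [← pow_mul, mul_comm, pow_mul]; norm_num
  have h4 := h2 (2 * (2 * K))
  rw [pow_mul] at h4
  have h5 := h3 (2 * K)
  have h6 : (2 * K + 1) ^ 2 ≤ K * (2 * (2 * K) + 1) := h5.trans (by simpa using h4)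
  nlinarith

/-- **Answer to Q1: yes.**  There is a finitely generated group (the extension `H(ℤ) ⋊ ℤ/4` of the
integral Heisenberg group by a rotation) whose automorphic growth rate is `n² log n`; it is
polynomially bounded and not polynomial. -/
theorem result : ∃ (G : Type) (_ : Group G), Group.FG G ∧
    ∀ S : Finset G, Subgroup.closure (S : Set G) = ⊤ →
      Sim (autGrowth S) (fun n => n ^ 2 * Nat.log 2 n) ∧
      (∃ d : ℕ, Dom (autGrowth S) (fun n => n ^ d)) ∧
      ∀ k : ℕ, ¬ Sim (autGrowth S) (fun n => n ^ k) := by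
  refine ⟨GG, inferInstance, ⟨⟨S0, S0_closure⟩⟩, fun S hS => ?_⟩
  have h1 := dom_upper S hS
  have h2 := dom_lower S hS
  refine ⟨⟨h1, h2⟩, ⟨3, ?_⟩, ?_⟩
  · refine h1.trans (pow_mono' 3) ⟨1, le_rfl, fun n => ?_⟩
    simp only [one_mul]
    have : Nat.log 2 n ≤ n := Nat.log_le_self 2 n
    calc n ^ 2 * Nat.log 2 n ≤ n ^ 2 * n := Nat.mul_le_mul_left _ this
      _ = n ^ 3 := by ring
      _ ≤ (n + 1) ^ 3 := Nat.pow_le_pow_left (by omega) 3
      _ ≤ _ := Nat.le_add_right _ _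
  · rintro k ⟨h3, h4⟩
    rcases Nat.lt_or_ge 2 k with hk | hk
    · exact not_high k hk (h4.trans cmp_mono h1)
    · exact not_low k hk (h2.trans (pow_mono' k) h3)

end Pool.Agent.Results.MP_eff972_al.QuadraticTimesLog
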